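import Pool.Agent.Helper45.MalcevMain

/-!
# Malcev coherence does not depend on the generating family; it is a local property
-/

set_option autoImplicit false

namespace Pool.Agent.Y343.MC

open Subgroup Pool.Agent.Helper45

universe u v

lemma rel_of_eq {G : Type u} [Group G] {n : ℕ} (a : Fin n → G) (x y : FreeSemigroup (Fin n))
    (h : FreeSemigroup.lift a x = FreeSemigroup.lift a y) :
    posWord x * (posWord y)⁻¹ ∈ Rel a :=
  ⟨x.head :: x.tail, y.head :: y.tail, by simp, by simp, by
    rw [← lift_eq_val, ← lift_eq_val, h], by rw [posWord_eq, posWord_eq]⟩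

/-- Malcev coherent groups have finitely based positive relations for every finite family. -/
theorem FR_of_malcevCoherent {G : Type u} [Group G] (hG : MalcevCoherent G) : FR G := by
  classical
  intro n a
  let S : Subsemigroup G := Subsemigroup.closure (Set.range a)
  obtain ⟨m, ι, ρ, hρ, hgen, hpres⟩ := hG S ⟨Set.range a, Set.finite_range a, rfl⟩
  have haS : ∀ i, a i ∈ S := fun i => Subsemigroup.subset_closure ⟨i, rfl⟩
  -- words over `Fin m` for the `a i`
  have hv : ∀ i, ∃ v : FreeSemigroup (Fin m), FreeSemigroup.lift ι v = ⟨a i, haS i⟩ := by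
    intro i
    have h1 : (⟨a i, haS i⟩ : S) ∈ Subsemigroup.closure (Set.range ι) := by
      rw [hgen]; trivial
    have h2 : Subsemigroup.closure (Set.range ι) ≤ (FreeSemigroup.lift ι).srange := by
      rw [Subsemigroup.closure_le]
      rintro _ ⟨j, rfl⟩
      exact ⟨FreeSemigroup.of j, by simp⟩
    obtain ⟨v, hv⟩ := h2 h1
    exact ⟨v, hv⟩
  choose v hv using hv
  have hw : ∀ j, ∃ w : FreeSemigroup (Fin n), FreeSemigroup.lift a w = (ι j : G) := by
    intro j
    have h1 : ((ι j : S) : G) ∈ Subsemigroup.closure (Set.range a) := (ι j).2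
    have h2 : Subsemigroup.closure (Set.range a) ≤ (FreeSemigroup.lift a).srange := by
      rw [Subsemigroup.closure_le]
      rintro _ ⟨i, rfl⟩
      exact ⟨FreeSemigroup.of i, by simp⟩
    obtain ⟨w, hw⟩ := h2 h1
    exact ⟨w, hw⟩
  choose w hw using hw
  let V : FreeSemigroup (Fin n) →ₙ* FreeSemigroup (Fin m) := FreeSemigroup.lift v
  let W : FreeSemigroup (Fin m) →ₙ* FreeSemigroup (Fin n) := FreeSemigroup.lift w
  have hV : ∀ x, ((FreeSemigroup.lift ι (V x) : S) : G) = FreeSemigroup.lift a x := by
    intro x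
    induction x using FreeSemigroup.recOnMul with
    | ih1 i => simp [V, hv]
    | ih2 x y hx hy => rw [map_mul, map_mul, map_mul, MulMemClass.coe_mul, hx, hy]
  have hW : ∀ y, FreeSemigroup.lift a (W y) = ((FreeSemigroup.lift ι y : S) : G) := by
    intro y
    induction y using FreeSemigroup.recOnMul with
    | ih1 i => simp [W, hw]
    | ih2 x y hx hy => rw [map_mul, map_mul, map_mul, MulMemClass.coe_mul, hx, hy]
  let Φ : FreeGroup (Fin m) →* FreeGroup (Fin n) := FreeGroup.lift (fun j => posWord (w j))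
  have hΦ : ∀ y, Φ (posWord y) = posWord (W y) := by
    intro y
    induction y using FreeSemigroup.recOnMul with
    | ih1 i => simp [W, Φ, posWord]
    | ih2 x y hx hy => rw [map_mul, map_mul, map_mul, map_mul, hx, hy]
  let E1 : Set (FreeGroup (Fin n)) :=
    Set.range (fun i => posWord (FreeSemigroup.of i) * (posWord (W (v i)))⁻¹)
  let E2 : Set (FreeGroup (Fin n)) :=
    (fun p : FreeSemigroup (Fin m) × FreeSemigroup (Fin m) =>
      posWord (W p.1) * (posWord (W p.2))⁻¹) '' ρ
  refine ⟨E1 ∪ E2, (Set.finite_range _).union (hρ.image _), ?_, ?_⟩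
  · rintro r (⟨i, rfl⟩ | ⟨p, hp, rfl⟩)
    · apply rel_of_eq
      rw [hW, hv]
      simp
    · apply rel_of_eq
      rw [hW, hW]
      congr 1
      rw [hpres]
      unfold gpValue
      rw [← mul_inv_eq_one, ← map_inv, ← map_mul]
      exact (QuotientGroup.eq_one_iff _).2 (subset_normalClosure ⟨p, hp, rfl⟩)
  · set q := QuotientGroup.mk' (normalClosure (E1 ∪ E2)) with hq
    have hqE : ∀ e ∈ E1 ∪ E2, q e = 1 := fun e he =>
      (QuotientGroup.eq_one_iff _).2 (subset_normalClosure he)
    have hA : ∀ x, q (posWord x) = q (posWord (W (V x))) := by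
      intro x
      induction x using FreeSemigroup.recOnMul with
      | ih1 i =>
        have h1 := hqE _ (Or.inl ⟨i, rfl⟩)
        rw [map_mul, map_inv] at h1
        have h2 := mul_inv_eq_one.1 h1
        rw [h2]
        simp [V]
      | ih2 x y hx hy => simp only [map_mul] at hx hy ⊢; rw [hx, hy]
    have hB : normalClosure (relators ρ) ≤ (q.comp Φ).ker := by
      apply normalClosure_le_normal
      rintro r ⟨p, hp, rfl⟩
      show q (Φ (posWord p.1 * (posWord p.2)⁻¹)) = 1
      rw [map_mul, map_inv, hΦ, hΦ]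
      exact hqE _ (Or.inr ⟨p, hp, rfl⟩)
    rintro r ⟨u, u', hu, hu', huu, rfl⟩
    obtain ⟨x, rfl⟩ := exists_word u hu
    obtain ⟨y, rfl⟩ := exists_word u' hu'
    rw [← lift_eq_val, ← lift_eq_val] at huu
    rw [← posWord_eq, ← posWord_eq]
    have h1 : FreeSemigroup.lift ι (V x) = FreeSemigroup.lift ι (V y) :=
      Subtype.ext (by rw [hV, hV, huu])
    rw [hpres] at h1
    unfold gpValue at h1
    rw [← mul_inv_eq_one, ← map_inv, ← map_mul] at h1
    have h2 := hB ((QuotientGroup.eq_one_iff _).1 h1)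
    have h3 : q (Φ (posWord (V x) * (posWord (V y))⁻¹)) = 1 := h2
    rw [map_mul, map_inv, hΦ, hΦ, map_mul, map_inv, ← hA, ← hA, ← map_inv, ← map_mul] at h3
    exact (QuotientGroup.eq_one_iff _).1 h3

theorem malcevCoherent_iff {G : Type u} [Group G] : MalcevCoherent G ↔ FR G :=
  ⟨FR_of_malcevCoherent, malcevCoherent_of_FR⟩

lemma rel_comp {G : Type u} {G' : Type v} [Group G] [Group G'] {A : Type*} (a : A → G) (f : G →* G')
    (hf : Function.Injective f) : Rel (f ∘ a) = Rel a := by
  ext r
  constructor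
  · rintro ⟨u, w, hu, hw, h, rfl⟩
    rw [val_comp, val_comp] at h
    exact ⟨u, w, hu, hw, hf h, rfl⟩
  · rintro ⟨u, w, hu, hw, h, rfl⟩
    exact ⟨u, w, hu, hw, by rw [val_comp, val_comp, h], rfl⟩

/-- Malcev coherence passes to groups that embed. -/
theorem mc_of_injective {G : Type u} {G' : Type v} [Group G] [Group G'] (f : G →* G')
    (hf : Function.Injective f) (h : MalcevCoherent G') : MalcevCoherent G := by
  rw [malcevCoherent_iff] at h ⊢
  intro n a
  have h1 := h n (f ∘ a)
  unfold FinRel at h1 ⊢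
  rwa [rel_comp a f hf] at h1

/-- Malcev coherence is a local property. -/
theorem mc_of_local {G : Type u} [Group G]
    (h : ∀ S : Subgroup G, S.FG → MalcevCoherent S) : MalcevCoherent G := by
  rw [malcevCoherent_iff]
  intro n a
  let S : Subgroup G := Subgroup.closure (Set.range a)
  have hS : S.FG := (Subgroup.fg_iff S).2 ⟨Set.range a, rfl, Set.finite_range a⟩
  have h1 := (malcevCoherent_iff.1 (h S hS)) n (fun i => ⟨a i, subset_closure ⟨i, rfl⟩⟩)
  unfold FinRel at h1 ⊢
  rw [← rel_comp _ S.subtype Subtype.val_injective] at h1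
  exact h1

end Pool.Agent.Y343.MC
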