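import Pool.Agent.Y343.MC.Conv

/-!
# Malcev coherence of extensions with virtually centralised kernel
-/

set_option autoImplicit false
set_option linter.style.haveILetI false

namespace Pool.Agent.Y343.MC

open Subgroup Pool.Agent.Helper45

section Noeth

variable {G : Type*} [Group G]

lemma fg_of_fg_finiteIndex (K : Subgroup G) [K.FiniteIndex] (hK : K.FG) : Group.FG G := by
  classical
  obtain ⟨S, hS⟩ := hK
  have hfin : Finite (G ⧸ K) := Subgroup.finite_quotient_of_finiteIndex
  let T : Set G := Set.range (Quotient.out : G ⧸ K → G)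
  have hTf : T.Finite := Set.finite_range _
  refine Group.fg_iff.2 ⟨(S : Set G) ∪ T, ?_, S.finite_toSet.union hTf⟩
  rw [eq_top_iff]
  intro g _
  set t := (Quotient.out (QuotientGroup.mk g : G ⧸ K)) with ht
  have hx : t⁻¹ * g ∈ K := by
    rw [← QuotientGroup.eq, ht]
    exact Quotient.out_eq _
  have h1 : t ∈ closure ((S : Set G) ∪ T) := subset_closure (Or.inr ⟨_, rfl⟩)
  have h2 : t⁻¹ * g ∈ closure ((S : Set G) ∪ T) := by
    rw [← hS] at hx
    exact (Subgroup.closure_mono Set.subset_union_left) hx
  have := mul_mem h1 h2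
  rwa [mul_inv_cancel_left] at this

/-- subgroups of finitely generated virtually abelian groups are finitely generated -/
lemma fg_of_le_fg_virt (M A J : Subgroup G) (hM : M.FG) (hA : A ≤ M) (hfi : A.relIndex M ≠ 0)
    (hcomm : ∀ x ∈ A, ∀ y ∈ A, x * y = y * x) (hJ : J ≤ M) : J.FG := by
  haveI : (A.subgroupOf M).FiniteIndex := ⟨hfi⟩
  haveI : Group.FG M := (Group.fg_iff_subgroup_fg M).2 hM
  haveI : Group.FG (A.subgroupOf M) := inferInstance
  have h1 : (A.subgroupOf M).FG := (Group.fg_iff_subgroup_fg _).1 inferInstance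
  have h2 : A.FG := by
    have := fg_map M.subtype h1
    rwa [Subgroup.map_subgroupOf_eq_of_le hA] at this
  have h3 : (J ⊓ A).FG := fg_of_le_fg_comm A (J ⊓ A) h2 hcomm inf_le_right
  have h4 : A.relIndex J ≠ 0 := fun h => hfi (Subgroup.relIndex_eq_zero_of_le_right hJ h)
  haveI : (A.subgroupOf J).FiniteIndex := ⟨h4⟩
  have h5 : (A.subgroupOf J).FG := by
    have e : (A.subgroupOf J) = ((J ⊓ A).subgroupOf J) := by
      rw [Subgroup.inf_subgroupOf_left]
    rw [e]
    haveI : Group.FG (J ⊓ A : Subgroup G) := (Group.fg_iff_subgroup_fg _).2 h3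
    haveI : Group.FG ((J ⊓ A).subgroupOf J) :=
      Group.fg_of_surjective
        (f := (Subgroup.subgroupOfEquivOfLe (inf_le_left : J ⊓ A ≤ J)).symm.toMonoidHom)
        (Subgroup.subgroupOfEquivOfLe (inf_le_left : J ⊓ A ≤ J)).symm.surjective
    exact (Group.fg_iff_subgroup_fg _).1 inferInstance
  exact (Group.fg_iff_subgroup_fg J).1 (fg_of_fg_finiteIndex _ h5)

lemma relIndex_map_dvd {H : Type*} [Group H] (q : G →* H) (A B : Subgroup G)
    (h : (A.map q).relIndex (B.map q) = 0) : A.relIndex B = 0 := by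
  rw [← Subgroup.relIndex_comap] at h
  have h1 := Subgroup.relIndex_dvd_of_le_left B (Subgroup.le_comap_map q A)
  rw [h] at h1
  exact Nat.eq_zero_of_zero_dvd h1

end Noeth

section Ext

variable {G G' : Type*} [Group G] [Group G']

/-- **Extension theorem.** Let `π : G → G'` be a homomorphism and `C` a normal subgroup of
finite index of `G` that centralises the kernel of `π`.  If every finite family in `G'` has
finitely based positive relations, so has every finite family in `G`. (The proof is that of
`Pool.Agent.Helper45.FR_of_hom`, where `C` contains the kernel; the image of the big relation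
subgroup is now virtually abelian instead of abelian.) -/
theorem FR_of_hom' (π : G →* G') (C : Subgroup G) [C.Normal] [C.FiniteIndex]
    (hcomm : ∀ x ∈ π.ker, ∀ c ∈ C, x * c = c * x) (h : FR G') : FR G := by
  intro n a
  obtain ⟨E, hEf, hE1, hE2⟩ := h n (π ∘ a)
  have hM : normalClosure (Rel (π ∘ a)) = normalClosure E :=
    le_antisymm (normalClosure_le_normal hE2) (normalClosure_mono hE1)
  have hNM : normalClosure (Rel a) ≤ normalClosure (Rel (π ∘ a)) := by
    apply normalClosure_mono
    rintro r ⟨u, v, hu, hv, huv, rfl⟩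
    exact ⟨u, v, hu, hv, by rw [val_comp, val_comp, huv], rfl⟩
  let Φ : Subgroup (FreeGroup (Fin n)) := C.comap (FreeGroup.lift a)
  haveI hΦi : Φ.FiniteIndex := by
    constructor
    rw [Subgroup.index_comap]
    haveI : C.IsFiniteRelIndex (FreeGroup.lift a).range := isFiniteRelIndex_of_finiteIndex
    exact Subgroup.relIndex_ne_zero
  haveI hΦn : Φ.Normal := inferInstance
  haveI : Group.FG Φ := inferInstance
  obtain ⟨Y, hY⟩ : Φ.FG := (Group.fg_iff_subgroup_fg Φ).1 inferInstance
  have hE1fin : (Set.image2 (fun r y : FreeGroup (Fin n) => r * y * r⁻¹ * y⁻¹) E Y).Finite :=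
    Set.Finite.image2 _ hEf Y.finite_toSet
  have hE1sub : (Set.image2 (fun r y : FreeGroup (Fin n) => r * y * r⁻¹ * y⁻¹) E Y) ⊆
      normalClosure (Rel a) := by
    rintro z ⟨r, hr, y, hy, rfl⟩
    refine commutator_mem n a π C hcomm r (hE1 hr) y ?_
    have : y ∈ Φ := by rw [← hY]; exact subset_closure hy
    exact this
  obtain ⟨R₁, hR₁sub, hR₁f, hR₁⟩ := exists_finite_of_subset_normalClosure hE1fin hE1sub
  let q : FreeGroup (Fin n) →* FreeGroup (Fin n) ⧸ normalClosure R₁ :=
    QuotientGroup.mk' (normalClosure R₁)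
  have hqs : Function.Surjective q := QuotientGroup.mk'_surjective _
  have hcE : ∀ r ∈ E, ∀ y ∈ Φ, Commute (q r) (q y) := by
    intro r hr y hy
    rw [← hY] at hy
    induction hy using Subgroup.closure_induction with
    | mem y hy =>
      have h1 : r * y * r⁻¹ * y⁻¹ ∈ normalClosure R₁ := hR₁ ⟨r, hr, y, hy, rfl⟩
      have h2 : q (r * y * r⁻¹ * y⁻¹) = 1 := (QuotientGroup.eq_one_iff _).2 h1
      simp only [map_mul, map_inv] at h2
      show q r * q y = q y * q r
      calc q r * q y = (q r * q y * (q r)⁻¹ * (q y)⁻¹) * (q y * q r) := by group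
        _ = q y * q r := by rw [h2, one_mul]
    | one => simp
    | mul y z _ _ hy hz => rw [map_mul]; exact hy.mul_right hz
    | inv y _ hy => rw [map_inv]; exact hy.inv_right
  -- the image of the big relation subgroup is central in the image of `Φ`
  have hcM : ∀ m ∈ normalClosure (Rel (π ∘ a)), ∀ y ∈ Φ, Commute (q m) (q y) := by
    intro m hm
    rw [hM] at hm
    unfold Subgroup.normalClosure at hm
    induction hm using Subgroup.closure_induction with
    | mem m hm =>
      intro y hy
      obtain ⟨r, hr, hc⟩ := Group.mem_conjugatesOfSet_iff.1 hm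
      obtain ⟨c, rfl⟩ := isConj_iff.1 hc
      have h1 := hcE r hr (c⁻¹ * y * c) (by
        have := hΦn.conj_mem y hy c⁻¹
        simpa using this)
      show q (c * r * c⁻¹) * q y = q y * q (c * r * c⁻¹)
      have h2 : q r * (q c⁻¹ * q y * q c) = (q c⁻¹ * q y * q c) * q r := by
        have := h1.eq
        simpa only [map_mul] using this
      simp only [map_mul, map_inv] at h2 ⊢
      calc q c * q r * (q c)⁻¹ * q y
          = q c * (q r * ((q c)⁻¹ * q y * q c)) * (q c)⁻¹ := by group
        _ = q c * (((q c)⁻¹ * q y * q c) * q r) * (q c)⁻¹ := by rw [h2]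
        _ = q y * (q c * q r * (q c)⁻¹) := by group
    | one => intro y hy; simp
    | mul m m' _ _ hm hm' =>
      intro y hy; rw [map_mul]; exact (hm y hy).mul_left (hm' y hy)
    | inv m _ hm => intro y hy; rw [map_inv]; exact (hm y hy).inv_left
  -- finite generation
  have hMfg : ((normalClosure (Rel (π ∘ a))).map q).FG := by
    have hfin : Finite (FreeGroup (Fin n) ⧸ Φ) := Subgroup.finite_quotient_of_finiteIndex
    let T : Set (FreeGroup (Fin n)) := Set.range (Quotient.out : FreeGroup (Fin n) ⧸ Φ → _)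
    have hTf : T.Finite := Set.finite_range _
    let W : Set (FreeGroup (Fin n) ⧸ normalClosure R₁) :=
      Set.image2 (fun t r => q t * q r * (q t)⁻¹) T E
    have hWf : W.Finite := Set.Finite.image2 _ hTf hEf
    have himg : (q '' (Group.conjugatesOfSet E)) ⊆ W := by
      rintro _ ⟨z, hz, rfl⟩
      obtain ⟨r, hr, hc⟩ := Group.mem_conjugatesOfSet_iff.1 hz
      obtain ⟨c, rfl⟩ := isConj_iff.1 hc
      set t := (Quotient.out (QuotientGroup.mk c : FreeGroup (Fin n) ⧸ Φ)) with ht
      refine ⟨t, ⟨_, rfl⟩, r, hr, ?_⟩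
      have hx : t⁻¹ * c ∈ Φ := by
        rw [← QuotientGroup.eq, ht]
        exact Quotient.out_eq _
      have h1 := (hcE r hr _ hx).eq
      have hc' : c = t * (t⁻¹ * c) := by group
      show q t * q r * (q t)⁻¹ = q (c * r * c⁻¹)
      simp only [map_mul, map_inv] at h1 ⊢
      calc q t * q r * (q t)⁻¹
          = q t * (q r * ((q t)⁻¹ * q c)) * (q c)⁻¹ := by group
        _ = q t * (((q t)⁻¹ * q c) * q r) * (q c)⁻¹ := by rw [h1]
        _ = q c * q r * (q c)⁻¹ := by group
    have hfin2 : (q '' (Group.conjugatesOfSet E)).Finite := hWf.subset himg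
    have : (normalClosure (Rel (π ∘ a))).map q = closure (q '' (Group.conjugatesOfSet E)) := by
      have hdef : normalClosure E = closure (Group.conjugatesOfSet E) := rfl
      rw [hM, hdef, MonoidHom.map_closure]
    rw [this]
    exact ⟨hfin2.toFinset, by simp⟩
  have hJfg : ((normalClosure (Rel a)).map q).FG := by
    have hfi : Φ.relIndex (normalClosure (Rel (π ∘ a))) ≠ 0 := by
      haveI : Φ.IsFiniteRelIndex (normalClosure (Rel (π ∘ a))) := isFiniteRelIndex_of_finiteIndex
      exact Subgroup.relIndex_ne_zero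
    refine fg_of_le_fg_virt ((normalClosure (Rel (π ∘ a))).map q)
      ((normalClosure (Rel (π ∘ a)) ⊓ Φ).map q) _ hMfg (Subgroup.map_mono inf_le_left) ?_ ?_
      (Subgroup.map_mono hNM)
    · intro h0
      apply hfi
      rw [← Subgroup.inf_relIndex_right, inf_comm]
      have h1 := relIndex_map_dvd q (normalClosure (Rel (π ∘ a)) ⊓ Φ)
        (normalClosure (Rel (π ∘ a)))
      exact (h1 h0)
    · rintro _ ⟨x, hx, rfl⟩ _ ⟨y, hy, rfl⟩
      exact (hcM x hx.1 y hy.2).eq
  haveI hJn : ((normalClosure (Rel a)).map q).Normal :=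
    Subgroup.Normal.map inferInstance q hqs
  haveI : Group.FG ((normalClosure (Rel a)).map q) := (Group.fg_iff_subgroup_fg _).2 hJfg
  have hJ : ((normalClosure (Rel a)).map q).IsFinitelyNormallyGenerated :=
    Subgroup.IsFinitelyNormallyGenerated.of_FG _
  have hker' : q.ker = normalClosure R₁ := QuotientGroup.ker_mk' _
  have hR₁le : normalClosure R₁ ≤ normalClosure (Rel a) := normalClosure_mono hR₁sub
  have hfinal := hJ.comap hqs ⟨R₁, hR₁f, hker'.symm⟩
  have hcomap : ((normalClosure (Rel a)).map q).comap q = normalClosure (Rel a) := by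
    rw [Subgroup.comap_map_eq, hker']
    exact sup_eq_left.2 hR₁le
  rw [hcomap] at hfinal
  obtain ⟨S, hSf, hS⟩ := hfinal
  refine finRel_of_finite a S hSf ?_ ?_
  · rw [← hS]; exact subset_normalClosure
  · rw [hS]; exact subset_normalClosure

end Ext

end Pool.Agent.Y343.MC
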