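import Pool.Agent.Y343.MC.Ext

/-!
# Malcev coherence: extensions, products, locality
-/

set_option autoImplicit false
set_option linter.style.haveILetI false

namespace Pool.Agent.Y343.MC

open Subgroup Pool.Agent.Helper45

universe u v w

/-- The iterated commutator subgroups `N, [N,C], [[N,C],C], ...` -/
def comIter {G : Type u} [Group G] (N C : Subgroup G) : ℕ → Subgroup G
  | 0 => N
  | n + 1 => ⁅comIter N C n, C⁆

/-- The group is virtually nilpotent. -/
def VNil (H : Type u) [Group H] : Prop := ∃ K : Subgroup H, K.FiniteIndex ∧ Group.IsNilpotent K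

/-- The group is virtually free. -/
def VFree (F : Type u) [Group F] : Prop := ∃ K : Subgroup F, K.FiniteIndex ∧ IsFreeGroup K

/-- extensions whose kernel is centralised by a normal subgroup of finite index -/
theorem mc_of_hom {G : Type u} {G' : Type v} [Group G] [Group G'] (π : G →* G') (C : Subgroup G)
    [C.Normal] [C.FiniteIndex] (hcomm : ∀ x ∈ π.ker, ∀ c ∈ C, x * c = c * x)
    (h : MalcevCoherent G') : MalcevCoherent G :=
  malcevCoherent_iff.2 (FR_of_hom' π C hcomm (malcevCoherent_iff.1 h))

/-- finite kernels -/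
theorem mc_of_finite_ker {G : Type u} {G' : Type v} [Group G] [Group G'] (π : G →* G')
    [Finite π.ker] (h : MalcevCoherent G') : MalcevCoherent G := by
  let f : G →* MulAut π.ker := MulAut.conjNormal
  haveI : Finite (MulAut π.ker) :=
    Finite.of_injective (fun e : MulAut π.ker => (e : π.ker → π.ker))
      (fun a b hab => MulEquiv.ext (fun x => congrFun hab x))
  haveI : Finite f.range := inferInstance
  haveI : f.ker.FiniteIndex := Subgroup.finiteIndex_ker f
  refine mc_of_hom π f.ker ?_ h
  intro x hx c hc
  have h1 : f c = 1 := hc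
  have h2 : (f c) ⟨x, hx⟩ = ⟨x, hx⟩ := by rw [h1]; rfl
  have h3 : c * x * c⁻¹ = x := by
    have := congrArg Subtype.val h2
    simpa [f] using this
  calc x * c = (c * x * c⁻¹) * c := by rw [h3]
    _ = c * x := by group

lemma comIter_normal {G : Type u} [Group G] (N C : Subgroup G) [N.Normal] [C.Normal] (n : ℕ) :
    (comIter N C n).Normal := by
  induction n with
  | zero => exact inferInstanceAs N.Normal
  | succ n ih => haveI := ih; exact Subgroup.commutator_normal _ _

lemma comIter_le {G : Type u} [Group G] (N C : Subgroup G) [N.Normal] [C.Normal] (n : ℕ) :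
    comIter N C n ≤ N := by
  induction n with
  | zero => exact le_rfl
  | succ n ih =>
    haveI := comIter_normal N C n
    exact (Subgroup.commutator_le_left _ _).trans ih

lemma comIter_map {G : Type u} {G' : Type v} [Group G] [Group G'] (f : G →* G')
    (N C : Subgroup G) (n : ℕ) : comIter (N.map f) (C.map f) n = (comIter N C n).map f := by
  induction n with
  | zero => rfl
  | succ n ih =>
    show ⁅comIter (N.map f) (C.map f) n, C.map f⁆ = (⁅comIter N C n, C⁆).map f
    rw [ih, Subgroup.map_commutator]

/-- If `[N, C, ..., C] = 1` for a normal subgroup `C` of finite index and `G / N` is Malcev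
coherent, then so is `G`. -/
theorem mc_hypercentral (c : ℕ) : ∀ {G : Type u} [Group G] (N C : Subgroup G) [N.Normal]
    [C.Normal] [C.FiniteIndex], comIter N C c = ⊥ → MalcevCoherent (G ⧸ N) →
    MalcevCoherent G := by
  induction c with
  | zero =>
    intro G _ N C _ _ _ hc h
    refine mc_of_injective (QuotientGroup.mk' N) ?_ h
    rw [← MonoidHom.ker_eq_bot_iff, QuotientGroup.ker_mk']
    exact hc
  | succ c ih =>
    intro G _ N C _ _ _ hc h
    haveI := comIter_normal N C c
    set M := comIter N C c with hM
    have hle : M ≤ N := comIter_le N C c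
    have hcM : ⁅M, C⁆ = ⊥ := hc
    refine mc_of_hom (QuotientGroup.mk' M) C ?_ ?_
    · intro x hx y hy
      rw [QuotientGroup.ker_mk'] at hx
      have h1 := Subgroup.commutator_mem_commutator hx hy
      rw [hcM, Subgroup.mem_bot] at h1
      exact commutatorElement_eq_one_iff_mul_comm.1 h1
    · have hs : Function.Surjective (QuotientGroup.mk' M) := QuotientGroup.mk'_surjective M
      haveI : (N.map (QuotientGroup.mk' M)).Normal := Subgroup.Normal.map inferInstance _ hs
      haveI : (C.map (QuotientGroup.mk' M)).Normal := Subgroup.Normal.map inferInstance _ hs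
      haveI : (C.map (QuotientGroup.mk' M)).FiniteIndex := by
        constructor
        intro h0
        have h1 := Subgroup.index_map_dvd C hs
        rw [h0] at h1
        exact Subgroup.FiniteIndex.index_ne_zero (H := C) (Nat.eq_zero_of_zero_dvd h1)
      refine ih (N.map (QuotientGroup.mk' M)) (C.map (QuotientGroup.mk' M)) ?_ ?_
      · rw [comIter_map, ← hM]
        rw [Subgroup.map_eq_bot_iff, QuotientGroup.ker_mk']
      · let e := QuotientGroup.quotientQuotientEquivQuotient M N hle
        exact mc_of_injective e.toMonoidHom e.injective h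

/-- products of Malcev coherent groups with virtually nilpotent groups -/
lemma FR_prod_nil (F : Type u) [Group F] (hF : FR F) (c : ℕ) :
    ∀ (H : Type v) [Group H] (K : Subgroup H) [K.Normal] [K.FiniteIndex]
      [Group.IsNilpotent K], Group.nilpotencyClass K ≤ c → FR (F × H) := by
  induction c with
  | zero =>
    intro H _ K _ _ _ hc
    have hs : Subsingleton K :=
      Group.nilpotencyClass_zero_iff_subsingleton.1 (Nat.le_zero.1 hc)
    haveI : Finite H := (Subgroup.finite_iff_finite_and_finiteIndex (H := K)).2
      ⟨inferInstance, inferInstance⟩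
    haveI : Finite (MonoidHom.fst F H).ker := by
      refine Finite.of_injective (fun x : (MonoidHom.fst F H).ker => x.1.2) ?_
      rintro ⟨⟨x1, x2⟩, hx⟩ ⟨⟨y1, y2⟩, hy⟩ hxy
      have h1 : x1 = 1 := hx
      have h2 : y1 = 1 := hy
      have h3 : x2 = y2 := hxy
      subst h1 h2 h3
      rfl
    exact malcevCoherent_iff.1 (mc_of_finite_ker (MonoidHom.fst F H) (malcevCoherent_iff.2 hF))
  | succ c ih =>
    intro H _ K _ _ _ hc
    let Z : Subgroup H := (Subgroup.center K).map K.subtype
    haveI hZn : Z.Normal := inferInstance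
    have hZK : Z ≤ K := by
      rintro _ ⟨x, -, rfl⟩; exact x.2
    let m : H →* H ⧸ Z := QuotientGroup.mk' Z
    have hms : Function.Surjective m := QuotientGroup.mk'_surjective Z
    let K' : Subgroup (H ⧸ Z) := K.map m
    haveI : K'.Normal := Subgroup.Normal.map inferInstance m hms
    haveI : K'.FiniteIndex := by
      constructor
      rw [Subgroup.index_map_eq K hms (by rw [QuotientGroup.ker_mk']; exact hZK)]
      exact Subgroup.FiniteIndex.index_ne_zero
    -- `K'` is a quotient of `K / center K`
    let f : K →* K' := (m.comp K.subtype).codRestrict K' (fun x => ⟨x.1, x.2, rfl⟩)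
    have hfs : Function.Surjective f := by
      rintro ⟨_, ⟨x, hx, rfl⟩⟩
      exact ⟨⟨x, hx⟩, rfl⟩
    have hfk : Subgroup.center K ≤ f.ker := by
      intro z hz
      rw [MonoidHom.mem_ker]
      apply Subtype.ext
      show m z.1 = 1
      exact (QuotientGroup.eq_one_iff _).2 ⟨z, hz, rfl⟩
    let f' : K ⧸ Subgroup.center K →* K' := QuotientGroup.lift _ f hfk
    have hfs' : Function.Surjective f' := by
      intro y
      obtain ⟨x, rfl⟩ := hfs y
      exact ⟨QuotientGroup.mk x, rfl⟩
    haveI : Group.IsNilpotent K' := Group.nilpotent_of_surjective f' hfs'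
    have hc' : Group.nilpotencyClass K' ≤ c := by
      have h1 := Group.nilpotencyClass_le_of_surjective f' hfs'
      have h2 := Group.nilpotencyClass_quotient_center (G := K)
      omega
    have hFR : FR (F × (H ⧸ Z)) := ih (H ⧸ Z) K' hc'
    let π : F × H →* F × (H ⧸ Z) := (MonoidHom.id F).prodMap m
    let C : Subgroup (F × H) := (⊤ : Subgroup F).prod K
    haveI : C.Normal := inferInstance
    haveI : C.FiniteIndex := by
      constructor
      rw [Subgroup.index_prod]
      exact mul_ne_zero Subgroup.FiniteIndex.index_ne_zero Subgroup.FiniteIndex.index_ne_zero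
    have hker : ∀ x ∈ π.ker, x.1 = 1 ∧ x.2 ∈ Z := by
      rintro ⟨x1, x2⟩ hx
      rw [MonoidHom.mem_ker] at hx
      have h1 : x1 = 1 := congrArg Prod.fst hx
      have h2 : m x2 = 1 := congrArg Prod.snd hx
      exact ⟨h1, (QuotientGroup.eq_one_iff _).1 h2⟩
    refine FR_of_hom π C ?_ ?_ hFR
    · intro x hx
      exact Subgroup.mem_prod.2 ⟨trivial, hZK (hker x hx).2⟩
    · rintro ⟨x1, x2⟩ hx ⟨c1, c2⟩ hc
      obtain ⟨h1, h2⟩ := hker _ hx
      simp only at h1 h2
      subst h1
      obtain ⟨z, hz, rfl⟩ := h2
      have hcK : c2 ∈ K := (Subgroup.mem_prod.1 hc).2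
      have := (Subgroup.mem_center_iff.1 hz) ⟨c2, hcK⟩
      have h3 : c2 * (z : H) = z * c2 := congrArg Subtype.val this
      refine Prod.ext (by simp) ?_
      exact h3.symm

theorem mc_prod_vnil (F : Type u) (H : Type v) [Group F] [Group H] (hF : MalcevCoherent F)
    (hH : VNil H) : MalcevCoherent (F × H) := by
  obtain ⟨K, hK, hnil⟩ := hH
  haveI : K.normalCore.FiniteIndex := inferInstance
  haveI : Group.IsNilpotent (K.normalCore.subgroupOf K) := inferInstance
  haveI : Group.IsNilpotent K.normalCore :=
    Group.nilpotent_of_mulEquiv (Subgroup.subgroupOfEquivOfLe K.normalCore_le)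
  exact malcevCoherent_iff.2 (FR_prod_nil F (malcevCoherent_iff.1 hF) _ H K.normalCore le_rfl)

/-- products of Malcev coherent groups with locally virtually nilpotent groups -/
theorem mc_prod (F : Type u) (H : Type v) [Group F] [Group H] (hF : MalcevCoherent F)
    (hH : ∀ S : Subgroup H, S.FG → VNil S) : MalcevCoherent (F × H) := by
  apply mc_of_local
  intro S hS
  let H₀ : Subgroup H := S.map (MonoidHom.snd F H)
  have h1 : H₀.FG := fg_map _ hS
  have h2 := mc_prod_vnil F H₀ hF (hH H₀ h1)
  let f : S →* F × H₀ :=
    { toFun := fun s => (s.1.1, ⟨s.1.2, ⟨s.1, s.2, rfl⟩⟩)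
      map_one' := rfl
      map_mul' := fun _ _ => rfl }
  refine mc_of_injective f ?_ h2
  rintro ⟨⟨x1, x2⟩, hx⟩ ⟨⟨y1, y2⟩, hy⟩ hxy
  have e1 : x1 = y1 := congrArg Prod.fst hxy
  have e2 : x2 = y2 := congrArg Subtype.val (congrArg Prod.snd hxy)
  subst e1 e2
  rfl

theorem mc_locally_vfree (F : Type u) [Group F] (hF : ∀ S : Subgroup F, S.FG → VFree S) :
    MalcevCoherent F := by
  apply mc_of_local
  intro S hS
  obtain ⟨K, hK, hfree⟩ := hF S hS
  exact malcevCoherent_of_FR (FR_of_Tri (Tri_of_virtuallyFree K hfree))

end Pool.Agent.Y343.MC
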